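import Pool.Agent.W_d799b0_h54.Final

/-!
# MP_d799b0_lc: non-adaptive reductions of NP to sparse sets and to linear threshold gates

The definitions `InP`, `InNP`, `Sparse`, `Sym`, `encL`, `DisjRed`, `ConjRed`, `MajRed` are in
`Pool/Agent/W_d799b0_h82/Defs.lean`, the definitions `WQuery`, `wsum`, `encW`, `IsTally`, `MixRed`,
`TtYesRed`, `ManyOne`, `LT1` in `Pool/Agent/W_d799b0_h54/FDefs.lean`; polynomial time is Mathlib's
`TM2ComputableInPolyTime`.
-/

set_option autoImplicit false

open Turing Computability

namespace Pool.Agent.Results.MP_d799b0_lc.BoundedYesThreshold

open Pool.Agent.W_d799b0_h82 Pool.Agent.W_d799b0_h54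

/-- P = NP if and only if every language in NP reduces, in polynomial time, in one of the following
ways: to some sparse set by a disjunctive reduction, a conjunctive reduction, a majority reduction, a
truth-table reduction with at most `k` answers `yes` on every input (the number of queries is not
bounded), or a mixed threshold reduction of degree `k` (weights `-1`, `0`, `1` for arbitrary queries,
arbitrary integer weights in binary for queries that ask for strings of ones only); or by a
many-one reduction to a language decided by linear threshold gates with arbitrary nonuniform
integer weights. The constant `k` and the sparse set may depend on the language. -/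
theorem result : (∀ A : Set (List Bool), InNP A ↔ InP A) ↔
    ∀ A : Set (List Bool), InNP A →
      (∃ S : Set (List Bool), Sparse S ∧ (DisjRed A S ∨ ConjRed A S ∨ MajRed A S ∨
        ∃ k : ℕ, TtYesRed k A S ∨ MixRed k A S)) ∨
      ∃ L : Set (List Bool), LT1 L ∧ ManyOne A L :=
  final_threshold

end Pool.Agent.Results.MP_d799b0_lc.BoundedYesThreshold
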