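import Pool.Agent.W_d799b0_g54.Final

/-!
# MP_d799b0_lc: reductions of NP to membership in nonuniform permutation groups

The definitions `InP`, `InNP`, `encL` are in `Pool/Agent/W_d799b0_h82/Defs.lean`, the definitions
`perm`, `encP`, `GroupTest`, `ChainTest`, `nestedDiff` in `Pool/Agent/W_d799b0_g54/Defs.lean`;
polynomial time is Mathlib's `TM2ComputableInPolyTime`.
-/

set_option autoImplicit false

open Turing Computability

namespace Pool.Agent.Results.MP_d799b0_lc.NestedGroupTests

open Pool.Agent.W_d799b0_h82 Pool.Agent.W_d799b0_g54

/-- P = NP if and only if every language in NP is a finite nested difference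
`B₁ \ (B₂ \ (B₃ \ ...))` of languages each of which is decided by membership in nonuniform
permutation groups (in polynomial time one computes from `x` a permutation of the set of all strings,
as a product of transpositions, and `x` is in the language iff this permutation is in the group
`G n`, `n = |x|`; the groups `G n` are arbitrary, but move only polynomially many strings) or, more
generally, by membership in nonuniform sets with short chains. -/
theorem result : (∀ A : Set (List Bool), InNP A ↔ InP A) ↔
    ∀ A : Set (List Bool), InNP A → ∃ Bs : List (Set (List Bool)),
      (∀ B ∈ Bs, GroupTest B ∨ ChainTest B) ∧ A = nestedDiff Bs :=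
  final_nested

end Pool.Agent.Results.MP_d799b0_lc.NestedGroupTests
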