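import Pool.Agent.W_d799b0_h54.Final

/-!
# MP_d799b0_lc: Turing reductions of NP to tally sets with few wrong predictions

The definitions `InP`, `InNP` are in `Pool/Agent/W_d799b0_h82/Defs.lean`, the definitions `IsTally`,
`Tally`, `Move`, `encM`, `Answers`, `wrong`, `TuringRed` in `Pool/Agent/W_d799b0_h54/FDefs.lean`;
polynomial time is Mathlib's `TM2ComputableInPolyTime`.
-/

set_option autoImplicit false

open Turing Computability

namespace Pool.Agent.Results.MP_d799b0_lc.WrongPredictions

open Pool.Agent.W_d799b0_h82 Pool.Agent.W_d799b0_h54

/-- P = NP if and only if every language in NP is accepted by a deterministic polynomial-time oracle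
machine with a tally set as oracle, which predicts the answer to each of its (adaptive) queries and
is wrong at most `k` times on every input. The constant `k` and the tally set may depend on the
language. (Always predicting `no` gives the case of at most `k` answers `yes`.) -/
theorem result : (∀ A : Set (List Bool), InNP A ↔ InP A) ↔
    ∀ A : Set (List Bool), InNP A →
      ∃ (k : ℕ) (T : Set (List Bool)), Tally T ∧ TuringRed k A T :=
  final_adaptive

end Pool.Agent.Results.MP_d799b0_lc.WrongPredictions
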